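import Pool.Agent.Y783.BX.Part

/-!
# Ultraparacompactness of parts of the box power
-/

set_option autoImplicit false

namespace Pool.Agent.Y783.BX

open Set Cardinal Ordinal Topology
open Pool.Agent.Results.MP_ff2f0d_gt.NormalUnderCH

/-- Every open cover is refined by a partition into open sets. -/
def UPara (Y : Type*) [TopologicalSpace Y] : Prop :=
  ∀ 𝒰 : Set (Set Y), (∀ U ∈ 𝒰, IsOpen U) → (∀ x : Y, ∃ U ∈ 𝒰, x ∈ U) →
    ∃ 𝒱 : Set (Set Y), (∀ S ∈ 𝒱, IsOpen S) ∧ (∀ x : Y, ∃ S ∈ 𝒱, x ∈ S) ∧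
      (∀ S ∈ 𝒱, ∀ S' ∈ 𝒱, ∀ x : Y, x ∈ S → x ∈ S' → S = S') ∧ ∀ S ∈ 𝒱, ∃ U ∈ 𝒰, S ⊆ U

/-- Disjoint closed sets are separated by a clopen set. -/
theorem UPara.separate {Y : Type*} [TopologicalSpace Y] (h : UPara Y) {H K : Set Y}
    (hH : IsClosed H) (hK : IsClosed K) (hHK : Disjoint H K) :
    ∃ C : Set Y, IsClopen C ∧ H ⊆ C ∧ Disjoint C K := by
  obtain ⟨𝒱, hV1, hV2, hV3, hV4⟩ := h {Hᶜ, Kᶜ} (by
    rintro U (rfl | rfl)
    · exact hH.isOpen_compl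
    · exact hK.isOpen_compl) (by
    intro x
    by_cases hx : x ∈ H
    · exact ⟨Kᶜ, Or.inr rfl, Set.disjoint_left.1 hHK hx⟩
    · exact ⟨Hᶜ, Or.inl rfl, hx⟩)
  refine ⟨⋃₀ {S | S ∈ 𝒱 ∧ (S ∩ H).Nonempty}, ⟨?_, ?_⟩, ?_, ?_⟩
  · have : (⋃₀ {S | S ∈ 𝒱 ∧ (S ∩ H).Nonempty}) = (⋃₀ {S | S ∈ 𝒱 ∧ ¬ (S ∩ H).Nonempty})ᶜ := by
      ext x
      obtain ⟨S, hS, hxS⟩ := hV2 x
      constructor
      · rintro ⟨S₁, ⟨h1, h2⟩, hx1⟩ ⟨S₂, ⟨h3, h4⟩, hx2⟩
        rw [hV3 S₁ h1 S₂ h3 x hx1 hx2] at h2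
        exact h4 h2
      · intro hx
        by_cases hS2 : (S ∩ H).Nonempty
        · exact ⟨S, ⟨hS, hS2⟩, hxS⟩
        · exact (hx ⟨S, ⟨hS, hS2⟩, hxS⟩).elim
    rw [this]
    exact (isOpen_sUnion fun S hS => hV1 S hS.1).isClosed_compl
  · exact isOpen_sUnion fun S hS => hV1 S hS.1
  · intro x hx
    obtain ⟨S, hS, hxS⟩ := hV2 x
    exact ⟨S, ⟨hS, ⟨x, hxS, hx⟩⟩, hxS⟩
  · rw [Set.disjoint_left]
    rintro x ⟨S, ⟨hS, ⟨y, hyS, hyH⟩⟩, hxS⟩ hxK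
    obtain ⟨U, hU, hSU⟩ := hV4 S hS
    rcases hU with rfl | rfl
    · exact hSU hyS hyH
    · exact hSU hxS hxK

theorem UPara.normal {Y : Type*} [TopologicalSpace Y] (h : UPara Y) : NormalSpace Y := by
  refine ⟨fun H K hH hK hHK => ?_⟩
  obtain ⟨C, hC, hHC, hCK⟩ := h.separate hH hK hHK
  exact ⟨C, Cᶜ, hC.isOpen, hC.isClosed.isOpen_compl, hHC,
    fun x hx hxC => Set.disjoint_left.1 hCK hxC hx, disjoint_compl_right⟩

theorem UPara.paracompact {Y : Type*} [TopologicalSpace Y] (h : UPara Y) :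
    ParacompactSpace Y := by
  refine ⟨fun α s hs hc => ?_⟩
  obtain ⟨𝒱, hV1, hV2, hV3, hV4⟩ := h (Set.range s) (by
    rintro U ⟨a, rfl⟩
    exact hs a) (by
    intro x
    have hx : x ∈ ⋃ a, s a := by
      rw [hc]
      exact Set.mem_univ x
    obtain ⟨a, ha⟩ := Set.mem_iUnion.1 hx
    exact ⟨s a, ⟨a, rfl⟩, ha⟩)
  refine ⟨𝒱, fun S => S.1, fun S => hV1 S.1 S.2, ?_, ?_, ?_⟩
  · refine Set.eq_univ_of_forall fun x => ?_
    obtain ⟨S, hS, hxS⟩ := hV2 x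
    exact Set.mem_iUnion.2 ⟨⟨S, hS⟩, hxS⟩
  · intro x
    obtain ⟨S, hS, hxS⟩ := hV2 x
    refine ⟨S, (hV1 S hS).mem_nhds hxS, ?_⟩
    refine (Set.finite_singleton (⟨S, hS⟩ : 𝒱)).subset ?_
    rintro S' ⟨y, hy1, hy2⟩
    rw [Set.mem_singleton_iff]
    exact Subtype.ext (hV3 S'.1 S'.2 S hS y hy1 hy2)
  · intro S
    obtain ⟨U, ⟨a, rfl⟩, hSU⟩ := hV4 S.1 S.2
    exact ⟨a, hSU⟩

/-- The enumeration of `exists_enumeration` for sets of cardinality at most `ℵ₁`. -/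
lemma exists_enum (A : Set (OmegaOne → ℕ∞)) (hAX : A ⊆ X) (hcardA : #A ≤ ℵ₁)
    (htop : (fun _ => ⊤ : OmegaOne → ℕ∞) ∈ A) :
    ∃ p : OmegaOne → OmegaOne → ℕ∞, (∀ z, p z ∈ A) ∧ (∀ z a, z ≤ a → p z a = ⊤) ∧
      ∀ x ∈ A, ∃ z, p z = x := by
  classical
  have hcard : #(A × OmegaOne) ≤ #OmegaOne := by
    rw [mk_prod, Cardinal.lift_id, Cardinal.lift_id, mk_omegaOne]
    calc #A * ℵ₁ ≤ ℵ₁ * ℵ₁ := mul_le_mul_left hcardA _
      _ = ℵ₁ := mul_eq_self (aleph0_le_aleph 1)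
  obtain ⟨j⟩ := hcard
  have hne : Nonempty OmegaOne := by
    rw [← mk_ne_zero_iff, mk_omegaOne]; exact (aleph_pos 1).ne'
  obtain ⟨i0⟩ := hne
  have : Nonempty (A × OmegaOne) := ⟨(⟨_, htop⟩, i0)⟩
  let h : OmegaOne → A × OmegaOne := Function.invFun j
  have hsurj : Function.Surjective h := Function.invFun_surjective j.injective
  refine ⟨fun z => if {a | (h z).1.1 a ≠ ⊤} ⊆ Set.Iio z then (h z).1.1 else fun _ => ⊤,
    ?_, ?_, ?_⟩
  · intro z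
    dsimp only
    split_ifs
    · exact (h z).1.2
    · exact htop
  · intro z a hza
    dsimp only
    split_ifs with hs
    · by_contra hna
      exact absurd (hs hna) (not_lt.mpr hza)
    · rfl
  · intro x hx
    -- the stages at which `x` is proposed are uncountably many
    have hunc : ¬ {z | (h z).1 = ⟨x, hx⟩}.Countable := by
      intro hc
      have h1 : (Set.univ : Set OmegaOne) ⊆ (fun z => (h z).2) '' {z | (h z).1 = ⟨x, hx⟩} := by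
        intro i _
        obtain ⟨z, hz⟩ := hsurj (⟨x, hx⟩, i)
        exact ⟨z, by simp [hz], by simp [hz]⟩
      have h2 : (Set.univ : Set OmegaOne).Countable := (hc.image _).mono h1
      have h3 : #OmegaOne ≤ ℵ₀ := by
        rw [← mk_univ, le_aleph0_iff_set_countable]; exact h2
      rw [mk_omegaOne] at h3
      exact absurd h3 (not_le.mpr aleph0_lt_aleph_one)
    have hbd : (⋃ a ∈ {a | x a ≠ ⊤}, Set.Iic a).Countable :=
      Set.Countable.biUnion (hAX hx) fun a _ => countable_Iic a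
    obtain ⟨z, hz, hznot⟩ : ∃ z, (h z).1 = ⟨x, hx⟩ ∧ z ∉ ⋃ a ∈ {a | x a ≠ ⊤}, Set.Iic a := by
      by_contra hno
      push Not at hno
      exact hunc (hbd.mono fun z hz => hno z hz)
    refine ⟨z, ?_⟩
    have hx1 : (h z).1.1 = x := by rw [hz]
    dsimp only
    rw [if_pos, hx1]
    intro a ha
    rw [hx1] at ha
    by_contra hza
    apply hznot
    simp only [Set.mem_iUnion]
    exact ⟨a, ha, Set.mem_Iic.mpr (not_lt.mp hza)⟩


/-- Small parts of the space, closed under finite modifications, are ultraparacompact in ZFC. -/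
theorem upara_small (A : Set (OmegaOne → ℕ∞)) (hAX : A ⊆ X) (hcardA : #A ≤ ℵ₁)
    (htop : (fun _ => ⊤ : OmegaOne → ℕ∞) ∈ A)
    (hA : ∀ p ∈ A, ∀ q : OmegaOne → ℕ∞, {a | q a ≠ p a}.Finite → q ∈ A) :
    @UPara A (subBoxTopology A) := by
  obtain ⟨p, hpX, hp, hsurj⟩ := exists_enum A hAX hcardA htop
  intro 𝒰 hU hcov
  exact partition_of_enumeration countable_Iic A hA p hpX hp hsurj 𝒰 hU hcov

theorem upara_CH (CH : (2 : Cardinal.{0}) ^ (ℵ₀ : Cardinal.{0}) = ℵ₁) :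
    @UPara X topologyX := by
  refine upara_small X subset_rfl (mk_X_le CH) (by simp [X]) ?_
  intro p hp q hq
  refine (hp.union hq.countable).mono ?_
  intro a ha
  by_cases h : q a = p a
  · left
    rw [Set.mem_ofPred_eq, ← h]
    exact ha
  · right
    exact h

end Pool.Agent.Y783.BX
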