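import Pool.Agent.Results.MP_ff2f0d_gt.NormalUnderCH

/-!
# Clopen partitions refining open covers

The construction of `normal_of_enumeration` (starting file, same clopen pieces), carried out for an
arbitrary open cover instead of a pair of closed sets.
-/

set_option autoImplicit false

namespace Pool.Agent.Y783.BX

open Set Cardinal Ordinal Topology
open Pool.Agent.Results.MP_ff2f0d_gt.NormalUnderCH

variable {I : Type*}

theorem partition_of_enumeration [LinearOrder I] [WellFoundedLT I]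
    (hcount : ∀ z : I, (Set.Iic z).Countable)
    (A : Set (I → ℕ∞)) (hA : ∀ p ∈ A, ∀ q : I → ℕ∞, {a | q a ≠ p a}.Finite → q ∈ A)
    (p : I → I → ℕ∞) (hpA : ∀ z, p z ∈ A) (hp : ∀ z a, z ≤ a → p z a = ⊤)
    (hsurj : ∀ x ∈ A, ∃ z, p z = x)
    (𝒰 : Set (Set A)) (hU : ∀ U ∈ 𝒰, IsOpen[subBoxTopology A] U) (hcov : ∀ x : A, ∃ U ∈ 𝒰, x ∈ U) :
    ∃ 𝒱 : Set (Set A), (∀ S ∈ 𝒱, IsOpen[subBoxTopology A] S) ∧ (∀ x : A, ∃ S ∈ 𝒱, x ∈ S) ∧
      (∀ S ∈ 𝒱, ∀ S' ∈ 𝒱, ∀ x : A, x ∈ S → x ∈ S' → S = S') ∧ ∀ S ∈ 𝒱, ∃ U ∈ 𝒰, S ⊆ U := by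
  classical
  choose e he using fun z => Set.countable_iff_exists_injOn.mp (hcount z)
  -- the guards
  have hG : ∀ x : I → ℕ∞, ∃ g : I → ℕ, ∀ _ : x ∈ A,
      ∃ U ∈ 𝒰, ∀ y (hy : y ∈ A), y ∈ N x g → (⟨y, hy⟩ : A) ∈ U := by
    intro x
    by_cases hx : x ∈ A
    · obtain ⟨U, hU1, hxU⟩ := hcov ⟨x, hx⟩
      obtain ⟨O, hO, hOU⟩ := hU U hU1
      have hxO : x ∈ O := by
        have : (⟨x, hx⟩ : A) ∈ Subtype.val ⁻¹' O := by
          rw [hOU]
          exact hxU
        exact this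
      obtain ⟨g, hg⟩ := exists_N_subset O hO x hxO
      refine ⟨g, fun _ => ⟨U, hU1, fun y hy hyN => ?_⟩⟩
      rw [← hOU]
      exact hg hyN
    · exact ⟨fun _ => 0, fun h => absurd h hx⟩
  choose G hG using hG
  -- the finite covers
  have hDfin : ∀ (z : I) (k : ℕ), {a | a < z ∧ e z a < k}.Finite := fun z k =>
    (finite_index he z k).subset fun a ha => ⟨ha.1.le, ha.2.le⟩
  choose Q hQfin hQoff hQcov using fun (z : I) (k : ℕ) =>
    finite_cover G {a | a < z ∧ e z a < k} (hDfin z k) (p z)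
  have hB : ∀ (z : I) (k : ℕ) (b : I), ∃ m : ℕ, ∀ q ∈ Q z k, G q b ≤ m := by
    intro z k b
    obtain ⟨m, hm⟩ := ((hQfin z k).image (fun q => G q b)).bddAbove
    exact ⟨m, fun q hq => hm (Set.mem_image_of_mem _ hq)⟩
  choose B hB using hB
  let γ : I → ℕ → I → ℕ := fun z k b => (Finset.range (k + 1)).sup (fun j => B z j b)
  have hγ : ∀ z b, Monotone fun k => γ z k b := by
    intro z b k k' hk
    exact Finset.sup_mono (Finset.range_mono (by omega))
  have hγG : ∀ z k b, ∀ q ∈ Q z k, G q b ≤ γ z k b := by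
    intro z k b q hq
    exact (hB z k b q hq).trans
      (Finset.le_sup (f := fun j => B z j b) (Finset.self_mem_range_succ k))
  obtain ⟨Γ, hΓγ, hmono, hΓe, hΓM⟩ := exists_Gamma p he hγ
  -- each box `V z k` is covered by finitely many guarded neighbourhoods
  have hVcov : ∀ z k, ∀ y ∈ V p e γ Γ z k, ∃ q ∈ Q z k, y ∈ N q (G q) := by
    intro z k y hy
    obtain ⟨q, hq, hqN⟩ := hQcov z k (fun a => if a < z ∧ e z a < k then y a else p z a) (by
      intro a ha
      have ha' : ¬ (a < z ∧ e z a < k) := ha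
      simp only [ha', if_false])
    refine ⟨q, hq, fun a => ?_⟩
    by_cases ha : a < z ∧ e z a < k
    · have := hqN a
      simpa only [ha, and_self, if_true] using this
    · have hqa : q a = p z a := hQoff z k q hq a ha
      by_cases haz : a < z
      · have hka : k ≤ e z a := by
          by_contra h; exact ha ⟨haz, not_le.mp h⟩
        have hok := hy.1 a haz hka
        refine ⟨fun h => ?_, fun h => ?_⟩
        · rw [hqa] at h ⊢; exact hok.1 h
        · rw [hqa] at h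
          refine lt_of_le_of_lt ?_ (hok.2 h)
          exact_mod_cast (hγG z k a q hq).trans (hγ z a hka)
      · have hza : z ≤ a := not_lt.mp haz
        have hpt : p z a = ⊤ := hp z a hza
        refine ⟨fun h => absurd (hqa.trans hpt) h, fun _ => ?_⟩
        refine lt_of_le_of_lt ?_ (hy.2 a hza)
        exact_mod_cast (hγG z k a q hq).trans (hΓγ z k a)
  -- the boxes are clopen
  have hVset : ∀ z k, V p e γ Γ z k = {y | ∀ a, y a ∈ {v : ℕ∞ |
      (a < z → k ≤ e z a → Ok p e γ z a v) ∧ (z ≤ a → (Γ z k a : ℕ∞) < v)}} := by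
    intro z k; ext y
    simp only [V, Set.mem_ofPred_eq]
    exact ⟨fun h a => ⟨h.1 a, h.2 a⟩, fun h => ⟨fun a => (h a).1, fun a => (h a).2⟩⟩
  have hCclopen : ∀ z k a, IsClopen {v : ℕ∞ |
      (a < z → k ≤ e z a → Ok p e γ z a v) ∧ (z ≤ a → (Γ z k a : ℕ∞) < v)} := by
    intro z k a
    by_cases haz : a < z
    · have hza : ¬ z ≤ a := not_le.mpr haz
      by_cases hka : k ≤ e z a
      · by_cases hpt : p z a = ⊤
        · have : {v : ℕ∞ | (a < z → k ≤ e z a → Ok p e γ z a v) ∧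
              (z ≤ a → (Γ z k a : ℕ∞) < v)} = {v : ℕ∞ | (γ z (e z a) a : ℕ∞) < v} := by
            ext v; simp [haz, hza, hka, hpt, Ok]
          rw [this]; exact ⟨isClosed_lt _, isOpen_lt _⟩
        · have : {v : ℕ∞ | (a < z → k ≤ e z a → Ok p e γ z a v) ∧
              (z ≤ a → (Γ z k a : ℕ∞) < v)} = {p z a} := by
            ext v; simp [haz, hza, hka, hpt, Ok]
          rw [this]; exact ⟨isClosed_singleton, ENat.isOpen_singleton hpt⟩
      · have : {v : ℕ∞ | (a < z → k ≤ e z a → Ok p e γ z a v) ∧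
            (z ≤ a → (Γ z k a : ℕ∞) < v)} = Set.univ := by
          ext v; simp [hza, hka]
        rw [this]; exact isClopen_univ
    · have hza : z ≤ a := not_lt.mp haz
      have : {v : ℕ∞ | (a < z → k ≤ e z a → Ok p e γ z a v) ∧
          (z ≤ a → (Γ z k a : ℕ∞) < v)} = {v : ℕ∞ | (Γ z k a : ℕ∞) < v} := by
        ext v; simp [haz, hza]
      rw [this]; exact ⟨isClosed_lt _, isOpen_lt _⟩
  have hVopen : ∀ z k, IsOpen[boxTopology I ℕ∞] (V p e γ Γ z k) := by
    intro z k; rw [hVset]; exact isOpen_pi _ fun a => (hCclopen z k a).isOpen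
  have hVclosed : ∀ z k, IsClosed[boxTopology I ℕ∞] (V p e γ Γ z k) := by
    intro z k; rw [hVset]; exact isClosed_pi _ fun a => (hCclopen z k a).isClosed
  -- the part not covered before stage `z` is open
  have hWopen : ∀ z, IsOpen[boxTopology I ℕ∞] {y | ∀ z' < z, ∀ k, y ∉ V p e γ Γ z' k} := by
    intro z
    refine (@isOpen_iff_forall_mem_open _ (boxTopology I ℕ∞) _).mpr ?_
    intro x hx
    obtain ⟨g, hg⟩ := exists_avoid he hp hmono hΓe hΓM z x hx
    exact ⟨N x g, fun y hy => hg y hy, isOpen_N x g, self_mem_N x g⟩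
  -- the clopen pieces
  let P : I → ℕ → Set (I → ℕ∞) := fun z k =>
    {y | y ∈ V p e γ Γ z k ∧ (∀ z' < z, ∀ k', y ∉ V p e γ Γ z' k') ∧
      ∀ k' < k, y ∉ V p e γ Γ z k'}
  have hPopen : ∀ z k, IsOpen[boxTopology I ℕ∞] (P z k) := by
    intro z k
    have h3 : IsOpen[boxTopology I ℕ∞] {y | ∀ k' < k, y ∉ V p e γ Γ z k'} := by
      have : {y | ∀ k' < k, y ∉ V p e γ Γ z k'} = (⋃ k' ∈ Set.Iio k, V p e γ Γ z k')ᶜ := by
        ext y; simp
      rw [this]
      refine (@isOpen_compl_iff _ _ (boxTopology I ℕ∞)).mpr ?_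
      exact @Set.Finite.isClosed_biUnion _ _ (boxTopology I ℕ∞) _ _ (Set.finite_Iio k)
        (fun k' _ => hVclosed z k')
    exact @IsOpen.inter _ (boxTopology I ℕ∞) _ _ (hVopen z k)
      (@IsOpen.inter _ (boxTopology I ℕ∞) _ _ (hWopen z) h3)
  have hPunique : ∀ z k z' k' y, y ∈ P z k → y ∈ P z' k' → z = z' ∧ k = k' := by
    intro z k z' k' y hy hy'
    have hzz : z = z' := by
      rcases lt_trichotomy z z' with h | h | h
      · exact absurd hy.1 (hy'.2.1 z h k)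
      · exact h
      · exact absurd hy'.1 (hy.2.1 z' h k')
    subst hzz
    refine ⟨rfl, ?_⟩
    rcases lt_trichotomy k k' with h | h | h
    · exact absurd hy.1 (hy'.2.2 k h)
    · exact h
    · exact absurd hy'.1 (hy.2.2 k' h)
  have hPcover : ∀ y ∈ A, ∃ z k, y ∈ P z k := by
    intro y hy
    obtain ⟨z0, rfl⟩ := hsurj y hy
    have h0 : p z0 ∈ V p e γ Γ z0 0 := by
      refine ⟨fun a _ _ => ⟨fun _ => rfl, fun h => ?_⟩, fun b hb => ?_⟩
      · rw [h]; exact ENat.natCast_lt_top _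
      · rw [hp z0 b hb]; exact ENat.natCast_lt_top _
    have hne : {z | ∃ k, p z0 ∈ V p e γ Γ z k}.Nonempty := ⟨z0, 0, h0⟩
    obtain ⟨z, hz, hzmin⟩ := WellFounded.has_min (wellFounded_lt (α := I)) _ hne
    have hk := Nat.find_spec hz
    refine ⟨z, Nat.find hz, hk, ?_, ?_⟩
    · intro z' hz' k' hmem
      exact hzmin z' ⟨k', hmem⟩ hz'
    · intro k' hk' hmem
      exact Nat.find_min hz hk' hmem
  -- the members of the partition
  choose idx hidx using fun (z : I) (k : ℕ) =>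
    Set.countable_iff_exists_injOn.mp (hQfin z k).countable
  let T : I → ℕ → (I → ℕ∞) → Set (I → ℕ∞) := fun z k q =>
    {y | y ∈ P z k ∧ y ∈ N q (G q) ∧ ∀ q' ∈ Q z k, idx z k q' < idx z k q → y ∉ N q' (G q')}
  have hTopen : ∀ z k q, IsOpen[boxTopology I ℕ∞] (T z k q) := by
    intro z k q
    have h3 : IsOpen[boxTopology I ℕ∞]
        {y | ∀ q' ∈ Q z k, idx z k q' < idx z k q → y ∉ N q' (G q')} := by
      have : {y | ∀ q' ∈ Q z k, idx z k q' < idx z k q → y ∉ N q' (G q')} =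
          (⋃ q' ∈ {q' | q' ∈ Q z k ∧ idx z k q' < idx z k q}, N q' (G q'))ᶜ := by
        ext y
        simp
      rw [this]
      refine (@isOpen_compl_iff _ _ (boxTopology I ℕ∞)).mpr ?_
      exact @Set.Finite.isClosed_biUnion _ _ (boxTopology I ℕ∞) _ _
        ((hQfin z k).subset fun q hq => hq.1) (fun q' _ => isClosed_N q' (G q'))
    exact @IsOpen.inter _ (boxTopology I ℕ∞) _ _ (hPopen z k)
      (@IsOpen.inter _ (boxTopology I ℕ∞) _ _ (isOpen_N q (G q)) h3)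
  refine ⟨{S | ∃ z k q, q ∈ Q z k ∧ S = Subtype.val ⁻¹' (T z k q)}, ?_, ?_, ?_, ?_⟩
  · rintro S ⟨z, k, q, -, rfl⟩
    exact ⟨T z k q, hTopen z k q, rfl⟩
  · rintro ⟨y, hy⟩
    obtain ⟨z, k, hyP⟩ := hPcover y hy
    have hex : ∃ n : ℕ, ∃ q ∈ Q z k, idx z k q = n ∧ y ∈ N q (G q) := by
      obtain ⟨q, hq, hyq⟩ := hVcov z k y hyP.1
      exact ⟨_, q, hq, rfl, hyq⟩
    obtain ⟨q, hq, hqn, hyq⟩ := Nat.find_spec hex
    refine ⟨_, ⟨z, k, q, hq, rfl⟩, ⟨hyP, hyq, ?_⟩⟩
    intro q' hq' hlt hyq'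
    rw [hqn] at hlt
    exact Nat.find_min hex hlt ⟨q', hq', rfl, hyq'⟩
  · rintro S ⟨z, k, q, hq, rfl⟩ S' ⟨z', k', q', hq', rfl⟩ ⟨y, hy⟩ h1 h2
    obtain ⟨hP1, hN1, hm1⟩ := h1
    obtain ⟨hP2, hN2, hm2⟩ := h2
    obtain ⟨rfl, rfl⟩ := hPunique z k z' k' y hP1 hP2
    have h3 : idx z k q = idx z k q' := by
      rcases lt_trichotomy (idx z k q) (idx z k q') with h | h | h
      · exact (hm2 q hq h hN1).elim
      · exact h
      · exact (hm1 q' hq' h hN2).elim
    rw [hidx z k hq hq' h3]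
  · rintro S ⟨z, k, q, hq, rfl⟩
    have hqA : q ∈ A := by
      refine hA (p z) (hpA z) q ((hDfin z k).subset ?_)
      intro a ha
      by_contra hna
      exact ha (hQoff z k q hq a hna)
    obtain ⟨U, hU1, hUy⟩ := hG q hqA
    refine ⟨U, hU1, ?_⟩
    rintro ⟨y, hy⟩ ⟨-, hyN, -⟩
    exact hUy y hy hyN

end Pool.Agent.Y783.BX
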